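import Pool.Agent.Helper20.NP.Stmts
import Pool.Agent.Helper80.DN.P3

/-! Module DIFT: the derivation on `L`, the formula for the different. -/

set_option autoImplicit false

namespace Pool.Agent.Helper20.NP

open Pool.Agent.Helper21.DN Polynomial

universe u

theorem dift_nat {L : Type u} [Field L] (v : AddValuation L (WithTop ℤ)) (n : ℕ) :
    0 ≤ v (n : L) := by
  induction n with
  | zero => rw [Nat.cast_zero, v.map_zero]; exact le_top
  | succ n ih =>
    rw [Nat.cast_succ]
    exact le_trans (le_min ih (by rw [v.map_one])) (v.map_add _ _)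

/-- the derivation of a polynomial value -/
theorem dift_eval {L : Type u} [Field L] (D : Derivation ℤ L L) (f : L[X]) (x : L) (n : ℕ)
    (hn : f.natDegree < n) : D (f.eval x) =
      ∑ i ∈ Finset.range n, D (f.coeff i) * x ^ i + (derivative f).eval x * D x := by
  have h1 : (derivative f).eval x = ∑ i ∈ Finset.range n, f.coeff i * (i : L) * x ^ (i - 1) := by
    rw [derivative_eval, sum_over_range' _ _ n hn]
    intro i
    ring
  rw [eval_eq_sum_range' hn, map_sum, h1, Finset.sum_mul, ← Finset.sum_add_distrib]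
  refine Finset.sum_congr rfl fun i _ => ?_
  rw [Derivation.leibniz, Derivation.leibniz_pow]
  simp only [smul_eq_mul, nsmul_eq_mul]
  ring

/-- a lower bound for `v (D x)` (continuity) -/
theorem dift_cont (hBAS : ST_BAS.{u}) {p : ℕ} {k K L : Type u} [Field k] [Field K] [Field L]
    [Algebra K L] [FiniteDimensional K L] [IsGalois K L] (κ : k →+* K)
    (v : AddValuation L (WithTop ℤ)) (hR : Ram κ v) (D : Derivation ℤ L L) (e : ℤ)
    (hD : Dif p K v D e) (π : L) (hπ : v π = 1) :
    ∃ C : ℤ, ∀ x : L, v x ≤ v (D x) + (C : WithTop ℤ) := by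
  obtain ⟨w0, hw0⟩ : ∃ w0 : ℤ, (w0 : WithTop ℤ) ≤ v (D π) := by
    induction h : v (D π) using WithTop.recTopCoe with
    | top => exact ⟨0, le_top⟩
    | coe a => exact ⟨a, le_rfl⟩
  set n := Module.finrank K L with hn
  have hpow : ∀ i : ℕ, v (π ^ i) = ((i : ℤ) : WithTop ℤ) := by
    intro i
    rw [v.map_pow, hπ]
    have h6 : (1 : WithTop ℤ) = ((1 : ℤ) : WithTop ℤ) := rfl
    rw [h6, ← WithTop.coe_nsmul]
    simp
  have hDpow : ∀ i : ℕ, (((i : ℤ) - 1 + w0 : ℤ) : WithTop ℤ) ≤ v (D (π ^ i)) := by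
    intro i
    rw [Derivation.leibniz_pow]
    simp only [smul_eq_mul, nsmul_eq_mul]
    rcases Nat.eq_zero_or_pos i with h0 | h0
    · subst h0
      have h1 : ((0 : ℕ) : L) * (π ^ (0 - 1) * D π) = 0 := by simp
      rw [h1, v.map_zero]
      exact le_top
    · rw [v.map_mul, v.map_mul, hpow]
      have h1 : (((i : ℤ) - 1 + w0 : ℤ) : WithTop ℤ) =
          0 + ((((i - 1 : ℕ) : ℤ) : WithTop ℤ) + (w0 : WithTop ℤ)) := by
        rw [zero_add, ← WithTop.coe_add]
        congr 2
        omega
      rw [h1]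
      exact add_le_add (dift_nat v i) (add_le_add le_rfl hw0)
  refine ⟨max ((n : ℤ) * e) (1 - w0), fun x => ?_⟩
  set C := max ((n : ℤ) * e) (1 - w0) with hC
  induction hx : v x using WithTop.recTopCoe with
  | top =>
    have hx0 : x = 0 := by
      rw [AddValuation.top_iff] at hx
      exact hx
    rw [hx0, map_zero, v.map_zero]
    exact le_top
  | coe m =>
    obtain ⟨a, hxa, hle, -⟩ := hBAS k K L κ v hR π hπ x
    have key : ((m - C : ℤ) : WithTop ℤ) ≤ v (D x) := by
      rw [hxa, map_sum]
      refine v.map_le_sum fun i _ => ?_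
      have h1 : a i • π ^ (i : ℕ) = algebraMap K L (a i) * π ^ (i : ℕ) := Algebra.smul_def _ _
      have h2 := hle i
      rw [hx, h1, v.map_mul, hpow] at h2
      rw [h1, Derivation.leibniz]
      simp only [smul_eq_mul]
      refine le_trans (le_min ?_ ?_) (v.map_add _ _)
      · rw [v.map_mul]
        -- a_i * D (π^i)
        have h3 := hDpow i
        induction hai : v (algebraMap K L (a i)) using WithTop.recTopCoe with
        | top => rw [WithTop.top_add]; exact le_top
        | coe b =>
          rw [hai, ← WithTop.coe_add, WithTop.coe_le_coe] at h2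
          refine le_trans ?_ (add_le_add le_rfl h3)
          rw [← WithTop.coe_add, WithTop.coe_le_coe]
          have : 1 - w0 ≤ C := le_max_right _ _
          omega
      · rw [v.map_mul, hpow]
        have h3 := hD.le (a i)
        rw [← hn] at h3
        induction hda : v (D (algebraMap K L (a i))) using WithTop.recTopCoe with
        | top => rw [WithTop.add_top]; exact le_top
        | coe b =>
          rw [hda, ← WithTop.coe_add] at h3
          induction hai : v (algebraMap K L (a i)) using WithTop.recTopCoe with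
          | top =>
            rw [hai] at h3
            exact absurd (top_le_iff.mp h3) WithTop.coe_ne_top
          | coe c =>
            rw [hai, WithTop.coe_le_coe] at h3
            rw [hai, ← WithTop.coe_add, WithTop.coe_le_coe] at h2
            rw [← WithTop.coe_add, WithTop.coe_le_coe]
            have : (n : ℤ) * e ≤ C := le_max_left _ _
            omega
    have h4 : ((m : ℤ) : WithTop ℤ) = ((m - C : ℤ) : WithTop ℤ) + (C : WithTop ℤ) := by
      rw [← WithTop.coe_add]
      congr 1
      omega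
    rw [h4]
    exact add_le_add key le_rfl

theorem st_DIFT (hDC : ST_DC.{u}) (hBAS : ST_BAS.{u}) (hS1 : ST_S1.{u}) : ST_DIFT.{u} := by
  classical
  intro p _ k K L _ _ _ _ _ _ _ _ κ v hR hp D e hD
  have hppr : p.Prime := Fact.out
  have hp1 : ¬ (p : ℤ) ∣ 1 := by
    intro hd
    have h5 := Int.eq_one_of_dvd_one (by positivity) hd
    have h6 : p = 1 := by exact_mod_cast h5
    exact hppr.one_lt.ne' h6
  obtain ⟨π, hπ⟩ := hR.tv.unif
  obtain ⟨C0, hC0⟩ := dift_cont hBAS κ v hR D e hD π hπ
  refine hDC p k L ((algebraMap K L).comp κ) v hR.tv D C0 _ π hC0 hπ ?_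
  set n := Module.finrank K L with hn
  have hn0 : 0 < n := Module.finrank_pos
  -- values of elements of `K`
  obtain ⟨vB, -, hvB⟩ := hR.sub ⊥
  have hbot : Module.finrank (⊥ : IntermediateField K L) L = n := IntermediateField.finrank_bot'
  have hmul : ∀ a : K, ∃ m : WithTop ℤ, v (algebraMap K L a) = n • m := by
    intro a
    refine ⟨vB (algebraMap K (⊥ : IntermediateField K L) a), ?_⟩
    rw [← hbot, ← hvB]
    rfl
  set H' : Finset (L ≃ₐ[K] L) := Finset.univ with hH'
  have hcard : H'.card = n := by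
    rw [hH', Finset.card_univ, ← Nat.card_eq_fintype_card, IsGalois.card_aut_eq_finrank]
  set f : L[X] := ∏ h ∈ H', (X - C (h π)) with hf
  have hmon : f.Monic := monic_prod_X_sub_C (fun h : L ≃ₐ[K] L => h π) H'
  have hdeg : f.natDegree = n := by
    rw [← hcard]
    exact natDegree_finsetProd_X_sub_C_eq_card H' (fun h : L ≃ₐ[K] L => h π)
  have hfix : ∀ τ : L ≃ₐ[K] L, f.map ((τ : L →ₐ[K] L) : L →+* L) = f := by
    intro τ
    rw [hf, Polynomial.map_prod]
    refine Finset.prod_equiv (Equiv.mulLeft τ) ?_ ?_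
    · intro i
      simp [hH']
    · intro i _
      simp only [Polynomial.map_sub, Polynomial.map_X, Polynomial.map_C, Equiv.coe_mulLeft]
      rfl
  have hK : ∀ i, ∃ a : K, f.coeff i = algebraMap K L a := by
    intro i
    have h1 : f.coeff i ∈ IntermediateField.fixedField (⊤ : Subgroup (L ≃ₐ[K] L)) := by
      rw [IntermediateField.mem_fixedField_iff]
      intro τ _
      have h2 := congrArg (fun q : L[X] => q.coeff i) (hfix τ)
      simp only [Polynomial.coeff_map] at h2
      exact h2
    have h2 : IntermediateField.fixedField (⊤ : Subgroup (L ≃ₐ[K] L)) = ⊥ := by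
      rw [← IntermediateField.fixingSubgroup_bot, IsGalois.fixedField_fixingSubgroup]
    rw [h2, IntermediateField.mem_bot] at h1
    obtain ⟨a, ha⟩ := h1
    exact ⟨a, ha.symm⟩
  -- value of `π - σ π`
  have hs : ∀ σ : L ≃ₐ[K] L, σ ≠ 1 → v (π - σ π) = (((1 + s v σ : ℕ) : ℤ) : WithTop ℤ) := by
    intro σ hσ
    have hne : ∃ x, σ x ≠ x := by
      by_contra hc
      push Not at hc
      exact hσ (AlgEquiv.ext hc)
    obtain ⟨_, _, h3⟩ := p3_S1 hS1 p k K L κ v hR.tv σ (hR.inv _) (p3_pow hp _) hne
    rw [v.map_sub_swap, h3 π 1 hπ hp1]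
    congr 1
  set G : L[X] := ∏ h ∈ H'.erase 1, (X - C (h π)) with hG
  have hfG : f = (X - C π) * G := by
    rw [hf, hG, ← Finset.mul_prod_erase H' _ (Finset.mem_univ (1 : L ≃ₐ[K] L))]
    rfl
  have hder : (derivative f).eval π = G.eval π := by
    rw [hfG, derivative_mul]
    simp
  have hcard1 : (H'.erase 1).card = n - 1 := by
    rw [Finset.card_erase_of_mem (Finset.mem_univ _), hcard]
  have hS1' : S1 (fun σ : L ≃ₐ[K] L => s v σ) = ∑ σ ∈ H'.erase 1, s v σ := by
    unfold S1
    refine Finset.sum_congr ?_ (fun _ _ => rfl)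
    ext j
    simp [hH']
  have hvder : v ((derivative f).eval π) =
      ((((n - 1 : ℕ) + S1 (fun σ : L ≃ₐ[K] L => s v σ) : ℕ) : ℤ) : WithTop ℤ) := by
    rw [hder, hG, Polynomial.eval_prod]
    have h1 : ∏ j ∈ H'.erase 1, Polynomial.eval π (X - C (j π)) =
        ∏ j ∈ H'.erase 1, (π - j π) := by
      refine Finset.prod_congr rfl ?_
      intro j _
      simp
    rw [h1, p3_prod v (fun j : L ≃ₐ[K] L => π - j π) (fun j => 1 + s v ⇑j) (H'.erase 1)
      (fun j hj => hs j (Finset.ne_of_mem_erase hj)), Finset.sum_add_distrib, Finset.sum_const,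
      hcard1, smul_eq_mul, mul_one, hS1']
  have hf0 : f.eval π = 0 := by
    rw [hfG]
    simp
  obtain ⟨n', hn'⟩ : ∃ n', n = n' + 1 := ⟨n - 1, by omega⟩
  have hlast : f.coeff n = 1 := by
    rw [← hdeg]
    exact hmon
  -- the derivation of `f (π) = 0`
  have hE := dift_eval D f π (n + 1) (by rw [hdeg]; omega)
  rw [hf0, map_zero, Finset.sum_range_succ, hlast, Derivation.map_one_eq_zero, zero_mul,
    add_zero, hn', Finset.sum_range_succ', pow_zero, mul_one] at hE
  -- the constant term
  obtain ⟨a0, ha0⟩ := hK 0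
  have hv0 : v (algebraMap K L a0) = (((n : ℤ) * 1 : ℤ) : WithTop ℤ) := by
    have h1 : f.coeff 0 = ∏ j ∈ H', (- (j π)) := by
      rw [Polynomial.coeff_zero_eq_eval_zero, hf, Polynomial.eval_prod]
      refine Finset.prod_congr rfl ?_
      intro j _
      simp
    have h2 : ∀ j ∈ H', v (-(j π)) = (((1 : ℕ) : ℤ) : WithTop ℤ) := by
      intro j _
      rw [v.map_neg, hR.inv, hπ]
      rfl
    rw [← ha0, h1, p3_prod v (fun j : L ≃ₐ[K] L => -(j π)) (fun _ => 1) H' h2, Finset.sum_const,
      hcard]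
    simp
  have hD0 : v (D (f.coeff 0)) = (((n : ℤ) * (1 - e) : ℤ) : WithTop ℤ) := by
    rw [ha0]
    exact hD.eq a0 1 hv0 hp1
  have hrest : v (D (f.coeff 0)) <
      v (∑ i ∈ Finset.range n', D (f.coeff (i + 1)) * π ^ (i + 1)) := by
    rw [hD0]
    refine v.map_lt_sum WithTop.coe_ne_top ?_
    intro i hi
    rw [Finset.mem_range] at hi
    rw [v.map_mul, v.map_pow, hπ]
    have h5 : (i + 1) • (1 : WithTop ℤ) = (((i + 1 : ℕ) : ℤ) : WithTop ℤ) := by
      have h6 : (1 : WithTop ℤ) = ((1 : ℤ) : WithTop ℤ) := rfl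
      rw [h6, ← WithTop.coe_nsmul]
      simp
    rw [h5]
    obtain ⟨b, hb⟩ := hK (i + 1)
    have h1 : 1 ≤ v (f.coeff (i + 1)) := by
      refine p3_coeff v (fun h : L ≃ₐ[K] L => h π) H' ?_ (i + 1) (by omega)
      intro j _
      rw [hR.inv, hπ]
    obtain ⟨m, hm⟩ := hmul b
    have h2 : 1 ≤ m := by
      apply p3_one_le n hn0
      rw [← hm, ← hb]
      exact h1
    have h3 := hD.le b
    rw [hm, ← hn] at h3
    have h4 : (((n : ℤ)) : WithTop ℤ) ≤ n • m := by
      have h7 : (((n : ℤ)) : WithTop ℤ) = n • (1 : WithTop ℤ) := by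
        have h6 : (1 : WithTop ℤ) = ((1 : ℤ) : WithTop ℤ) := rfl
        rw [h6, ← WithTop.coe_nsmul]
        simp
      rw [h7]
      exact p3_smul_mono n _ _ h2
    have h8 := le_trans h4 h3
    rw [hb]
    induction hdb : v (D (algebraMap K L b)) using WithTop.recTopCoe with
    | top => rw [WithTop.top_add]; exact WithTop.coe_lt_top _
    | coe c =>
      rw [hdb, ← WithTop.coe_add, WithTop.coe_le_coe] at h8
      rw [← WithTop.coe_add, WithTop.coe_lt_coe]
      push_cast
      linarith
  -- conclusion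
  have hfin : v ((derivative f).eval π * D π) = (((n : ℤ) * (1 - e) : ℤ) : WithTop ℤ) := by
    have h1 : (derivative f).eval π * D π =
        -((∑ i ∈ Finset.range n', D (f.coeff (i + 1)) * π ^ (i + 1)) + D (f.coeff 0)) := by
      rw [eq_neg_iff_add_eq_zero, add_comm]
      exact hE.symm
    rw [h1, v.map_neg, v.map_add_eq_of_lt_right hrest, hD0]
  rw [v.map_mul, hvder] at hfin
  induction hdp : v (D π) using WithTop.recTopCoe with
  | top =>
    rw [hdp, WithTop.add_top] at hfin
    exact absurd hfin WithTop.top_ne_coe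
  | coe c =>
    rw [hdp, ← WithTop.coe_add, WithTop.coe_inj] at hfin
    rw [WithTop.coe_inj]
    push_cast at hfin
    have h9 : ((n - 1 : ℕ) : ℤ) = n - 1 := by omega
    rw [h9] at hfin
    linarith

end Pool.Agent.Helper20.NP
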