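import Pool.Agent.Helper24.NP.NP1a

/-! Module NP1: integrality of all conductors when all elements of order `p` are central. -/

set_option autoImplicit false

namespace Pool.Agent.Helper22.NP

open scoped Classical

/-- the levels of the kernel of a linear character -/
theorem np1_har (hHAR : ST_HAR) {p : ℕ} [Fact p.Prime] {G k M : Type} [Field k] [CharP k p]
    [Field M] [Group G] [Fintype G] [MulSemiringAction G M] {ι : k →+* M}
    {v : AddValuation M (WithTop ℤ)} (hGS : GS G ι v) (hG : IsPGroup p G) (ω : G →* ℂˣ)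
    (hω : ∃ g, ω g ≠ 1) :
    ∃ m : ℤ, Phi (ram (G := G) v) (lev (ram (G := G) v) {g | ω g ≠ 1}) = m := by
  have hne : ω.ker ≠ ⊤ := by
    obtain ⟨g, hg⟩ := hω
    intro h
    apply hg
    rw [← MonoidHom.mem_ker, h]
    trivial
  have hcyc : IsCyclic (G ⧸ ω.ker) := by
    refine isCyclic_of_injective_ringHom
      ((Units.coeHom ℂ).comp (QuotientGroup.kerLift ω)) ?_
    exact Units.val_injective.comp (QuotientGroup.kerLift_injective ω)
  exact hHAR p G k M ι v hGS hG ω.ker hne hcyc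

/-- the normal subgroup of the images of the elements of high level -/
theorem np1_s (hRFI : ST_RFI) {p : ℕ} [Fact p.Prime] {G k M P : Type} [Field k]
    [Field M] [Group G] [Fintype G] [MulSemiringAction G M] {ι : k →+* M}
    {v : AddValuation M (WithTop ℤ)} (hGS : GS G ι v) [Group P] [Finite P] [Nontrivial P]
    (hP : IsPGroup p P) (π : G →* P) (hπ : Function.Surjective π) :
    ∃ g : G, π g ≠ 1 ∧ π g ∈ Subgroup.center P ∧
      ram v g = lev (ram (G := G) v) {g | π g ≠ 1} := by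
  set i : G → ℕ := ram (G := G) v with hi
  set l0 := lev i {g | π g ≠ 1} with hl0
  have hRF : RF G i := hRFI G k M ι v hGS
  have hne : ({g | π g ≠ 1} : Set G).Nonempty := by
    obtain ⟨x, hx⟩ := exists_ne (1 : P)
    obtain ⟨g, hg⟩ := hπ x
    exact ⟨g, by rw [Set.mem_ofPred_eq, hg]; exact hx⟩
  obtain ⟨g0, hg0, hg0'⟩ := lev_mem i _ hne
  let T : Subgroup G :=
    { carrier := {g | g = 1 ∨ l0 ≤ i g}
      one_mem' := Or.inl rfl
      mul_mem' := by
        rintro a b (ha | ha) (hb | hb)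
        · left; rw [ha, hb, one_mul]
        · right; rw [ha, one_mul]; exact hb
        · right; rw [hb, mul_one]; exact ha
        · by_cases h1 : a = 1
          · right; rw [h1, one_mul]; exact hb
          by_cases h2 : b = 1
          · right; rw [h2, mul_one]; exact ha
          by_cases h3 : a * b = 1
          · left; exact h3
          · right
            exact (le_min ha hb).trans (hRF.ult a b h1 h2 h3)
      inv_mem' := by
        rintro a (ha | ha)
        · left; rw [ha, inv_one]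
        · right; rw [hRF.inv]; exact ha }
  have hTn : T.Normal := by
    constructor
    rintro a (ha | ha) g
    · left; rw [ha, mul_one, mul_inv_cancel]
    · right; rw [hRF.conj]; exact ha
  have hSn : (T.map π).Normal := hTn.map π hπ
  have hSb : T.map π ≠ ⊥ := by
    intro h
    have h1 : π g0 ∈ T.map π := ⟨g0, Or.inr hg0'.ge, rfl⟩
    rw [h, Subgroup.mem_bot] at h1
    exact hg0 h1
  obtain ⟨s, ⟨g1, hg1, rfl⟩, hs1, hsc⟩ := np1_center hP (T.map π) hSb
  refine ⟨g1, hs1, hsc, ?_⟩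
  rcases hg1 with h | h
  · exact absurd (by rw [h, map_one]) hs1
  · exact le_antisymm (le_lev i _ hs1) h

theorem np1_main (hTHB : ST_THB) (hCP2 : ST_CP2) (hHAR : ST_HAR) (hPMO : ST_PMO) (hASL : ST_ASL)
    (hRFI : ST_RFI) {p : ℕ} [Fact p.Prime] (hp2 : p ≠ 2) {G k M P : Type} [Field k]
    [IsAlgClosed k] [CharP k p] [Field M] [Group G] [Fintype G] [MulSemiringAction G M] [Group P]
    [Finite P] [Nontrivial P] (ι : k →+* M) (v : AddValuation M (WithTop ℤ)) (π : G →* P)
    (lam : P →* Multiplicative (ZMod p)) (z : M) (j : ℕ)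
    (F : (P →* Multiplicative (ZMod p)) → M) (J : (P →* Multiplicative (ZMod p)) → ℕ)
    (Y : (P →* Multiplicative (ZMod p)) → M) (hGS : GS G ι v) (hGp : IsPGroup p G)
    (hπ : Function.Surjective π) (hA : Aux p v π lam.ker lam z j F J Y) (hP : IsPGroup p P)
    (hB : lam.ker.index = p) (hab : ∀ a ∈ lam.ker, ∀ b ∈ lam.ker, a * b = b * a)
    (hcen : ∀ x : P, x ^ p = 1 → x ∈ Subgroup.center P)
    (h5 : Subgroup.center P ≤ lam.ker ∧ (∀ x y : P, x⁻¹ * y⁻¹ * x * y ∈ Subgroup.center P) ∧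
      (∀ x y : P, (x⁻¹ * y⁻¹ * x * y) ^ p = 1) ∧ (∀ x : P, x ^ p ∈ Subgroup.center P) ∧
      (∀ g : P, g ∉ lam.ker → ∀ χ : lam.ker →* Multiplicative (ZMod p),
        (∀ b : lam.ker, (b : P) ∈ Subgroup.center P → χ b = 1) →
        ∃ f : P →* Multiplicative (ZMod p), f g = 1 ∧ (∀ x ∈ Subgroup.center P, f x = 1) ∧
          ∀ b : lam.ker, f (b : P) = χ b))
    (h6 : ∀ g : P, g ∉ lam.ker → ∀ b ∈ lam.ker, g ^ p ≠ b ^ p) (c : ℚ)
    (hc : c + 1 = Phi (ram (G := G) v) (lev (ram (G := G) v) {g | π g ≠ 1})) :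
    ∃ m : ℤ, c = m := by
  have hp : p.Prime := Fact.out
  have hchM := charP_of_ring (p := p) ι
  set i : G → ℕ := ram (G := G) v with hi
  set l0 := lev i {g | π g ≠ 1} with hl0
  have hcB : ∀ a b : lam.ker, a * b = b * a := fun a b => Subtype.ext (hab a a.2 b b.2)
  -- the characters `f`
  have hF : ∀ f : P →* Multiplicative (ZMod p), f ≠ 1 →
      Phi i (lev i {g | f (π g) ≠ 1}) = J f + 1 := fun f hf =>
    np1_asl hASL hGS hGp (fun g => f (π g)) (F f) (J f) (hA.aF f) (hA.vF f hf) (hA.Jp f hf).1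
      (hA.Jp f hf).2
  have hz : Phi i (lev i {g | lam (π g) ≠ 1}) = j + 1 :=
    np1_asl hASL hGS hGp (fun g => lam (π g)) z j hA.az hA.vz hA.jpos hA.jp
  have hkf : ∀ f : P →* Multiplicative (ZMod p), f ≠ 1 → (∀ b ∈ lam.ker, f b = 1) →
      f.ker = lam.ker := by
    intro f hf hfb
    refine np1_ker lam.ker f.ker hB (fun b hb => hfb b hb) ?_
    intro h
    apply hf
    ext x
    have : x ∈ f.ker := by rw [h]; trivial
    rw [this]
    rfl
  have hJB : ∀ f : P →* Multiplicative (ZMod p), f ≠ 1 → (∀ b ∈ lam.ker, f b = 1) → J f = j := by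
    intro f hf hfb
    have h1 := hkf f hf hfb
    have h2 : {g | f (π g) ≠ 1} = {g | lam (π g) ≠ 1} := by
      ext g
      have : π g ∈ f.ker ↔ π g ∈ lam.ker := by rw [h1]
      rw [MonoidHom.mem_ker, MonoidHom.mem_ker] at this
      exact not_congr this
    have h3 := hF f hf
    rw [h2, hz] at h3
    have h4 : (j : ℚ) = J f := by linarith
    exact_mod_cast h4.symm
  -- the largest break
  have hfin : Finite (P →* Multiplicative (ZMod p)) :=
    Finite.of_injective (fun f => (f : P → Multiplicative (ZMod p))) DFunLike.coe_injective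
  obtain ⟨f0, ⟨hf0, hf0c⟩, hmax⟩ := Set.exists_max_image
    {f : P →* Multiplicative (ZMod p) | f ≠ 1 ∧ ∀ x ∈ Subgroup.center P, f x = 1} J
    (Set.toFinite _) ⟨lam, hA.lne, fun x hx => h5.1 hx⟩
  have hjJ : j ≤ J f0 := by
    have h1 := hmax lam ⟨hA.lne, fun x hx => h5.1 hx⟩
    rwa [hJB lam hA.lne (fun b hb => hb)] at h1
  set J' := J f0 with hJ'
  have hJ1 : 1 ≤ J' := hA.jpos.trans_le hjJ
  have hbd : ∀ f : P →* Multiplicative (ZMod p), (∀ x ∈ Subgroup.center P, f x = 1) →
      (((if f = 1 then 0 else J f) + j + 1 : ℕ) : ℚ) ≤ 2 * J' + 1 := by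
    intro f hf
    have h1 : (if f = 1 then 0 else J f) ≤ J' := by
      split_ifs with h
      · exact Nat.zero_le _
      · exact hmax f ⟨h, hf⟩
    exact_mod_cast (by omega : (if f = 1 then 0 else J f) + j + 1 ≤ 2 * J' + 1)
  -- (beta)
  have hbeta : (∃ m : ℤ, c = m) ∨ c ≤ 2 * J' := by
    by_contra hcon
    push Not at hcon
    obtain ⟨hcm, hcJ⟩ := hcon
    obtain ⟨g1, hg1, hg1c, hg1l⟩ := np1_s hRFI hGS hP π hπ
    have hb1 : π g1 ∈ lam.ker := h5.1 hg1c
    obtain ⟨ψ, hψ⟩ := np1_ne lam.ker hcB ⟨π g1, hb1⟩ (fun h => hg1 (congrArg Subtype.val h))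
    obtain ⟨f, ω, θ, ε, t1, t2, t3, t4, t5, t6, t7⟩ := hTHB p hp2 G k M P ι v π lam.ker lam z j F J
      Y hGS hGp hπ hA hab h5 ψ
    have h7 : lev i {g : G | π g ∈ lam.ker ∧ g • Y f ≠ Y f} < l0 := by
      apply np1_lt hPMO i
      have h8 := hbd f t1
      push_cast at h8 t7
      rw [← hi] at t7
      rw [← hc]
      linarith
    have h8 : ∀ g : G, l0 ≤ i g → ∀ hb : π g ∈ lam.ker, ψ ⟨π g, hb⟩ = ω g := by
      intro g hg hb
      have h9 : g • Y f = Y f := by
        by_contra h10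
        have : i g ≤ lev i {g : G | π g ∈ lam.ker ∧ g • Y f ≠ Y f} := le_lev i _ ⟨hb, h10⟩
        omega
      have h10 := t3 g hb
      rw [h9] at h10
      have h11 : zc p M (θ g) = 0 := by
        have := h10.symm
        rwa [add_eq_left] at this
      rw [np1_zc] at h11
      rw [t4 g ⟨π g, hb⟩ rfl, h11]
      simp
    have h9 : ω g1 ≠ 1 := by
      rw [← h8 g1 hg1l.ge hb1]
      exact hψ
    have h10 : lev i {g | ω g ≠ 1} = l0 := by
      apply le_antisymm
      · apply lev_le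
        intro g hg
        by_contra hlt
        have h11 : π g = 1 := by
          by_contra h12
          exact hlt (le_lev i _ h12)
        have hb : π g ∈ lam.ker := by rw [h11]; exact one_mem _
        have h12 := h8 g (by omega) hb
        apply hg
        rw [← h12]
        have h13 : (⟨π g, hb⟩ : lam.ker) = 1 := Subtype.ext h11
        rw [h13, map_one]
      · rw [hl0, ← hg1l]
        exact le_lev i _ h9
    obtain ⟨m, hm⟩ := np1_har hHAR hGS hGp ω ⟨g1, h9⟩
    rw [← hi, h10, ← hc] at hm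
    exact hcm (m - 1) (by push_cast; linarith)
  rcases hbeta with hbeta | hbeta
  · exact hbeta
  exfalso
  -- (alpha), common part
  have halpha : ∀ (ψ : lam.ker →* ℂˣ) (f : P →* Multiplicative (ZMod p)) (ω : G →* ℂˣ)
      (θ : G → Multiplicative (ZMod p)) (ε : ℂˣ), (∀ x ∈ Subgroup.center P, f x = 1) →
      (∀ g : G, π g ∈ lam.ker → g • Y f = Y f + zc p M (θ g)) →
      (∀ (g : G) (b : lam.ker), (b : P) = π g →
        ψ b = ω g * ε ^ (Multiplicative.toAdd (θ g)).val) →
      Phi (ram (G := G) v) (lev (ram (G := G) v) {g | π g ∈ lam.ker ∧ g • Y f ≠ Y f}) ≤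
        (if f = 1 then 0 else J f) + j + 1 →
      (∀ g, ω g ^ (p ^ 2) = 1) → (∃ g, ω g ^ p ≠ 1) →
      ((J' : ℚ) + 1 ≤ Phi i (lev i {g | ω g ^ p ≠ 1})) → False := by
    intro ψ f ω θ ε t1 t3 t4 t7 w1 w2 w3
    have hp3 : 3 ≤ p := by
      have := hp.two_le
      omega
    have hp3' : (3 : ℚ) ≤ p := by exact_mod_cast hp3
    have hJq : (1 : ℚ) ≤ J' := by exact_mod_cast hJ1
    have hjq : (j : ℚ) ≤ J' := by exact_mod_cast hjJ
    have h1 := hCP2 p G k M ι v hGS hGp ω w1 w2
    rw [← hi] at h1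
    set L1 := lev i {g | ω g ≠ 1} with hL1
    have h2 : (p : ℚ) * J' + 1 ≤ Phi i L1 := by nlinarith
    have h3 : lev i {g : G | π g ∈ lam.ker ∧ g • Y f ≠ Y f} < L1 := by
      apply np1_lt hPMO i
      have h8 := hbd f t1
      push_cast at h8 t7
      rw [← hi] at t7
      nlinarith
    have h4 : lev i {g | lam (π g) ≠ 1} < L1 := by
      apply np1_lt hPMO i
      rw [hz]
      nlinarith
    have hne : ({g | ω g ≠ 1} : Set G).Nonempty := by
      obtain ⟨g, hg⟩ := w2
      refine ⟨g, fun h => hg ?_⟩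
      rw [h, one_pow]
    obtain ⟨g, hg, hgL⟩ := lev_mem i _ hne
    have hb : π g ∈ lam.ker := by
      by_contra h
      have : i g ≤ lev i {g | lam (π g) ≠ 1} := le_lev i _ h
      omega
    have h9 : g • Y f = Y f := by
      by_contra h10
      have : i g ≤ lev i {g : G | π g ∈ lam.ker ∧ g • Y f ≠ Y f} := le_lev i _ ⟨hb, h10⟩
      omega
    have h10 := t3 g hb
    rw [h9] at h10
    have h11 : zc p M (θ g) = 0 := by
      have := h10.symm
      rwa [add_eq_left] at this
    rw [np1_zc] at h11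
    have h12 := t4 g ⟨π g, hb⟩ rfl
    rw [h11] at h12
    have h13 : π g ≠ 1 := by
      intro h14
      apply hg
      have h15 : (⟨π g, hb⟩ : lam.ker) = 1 := Subtype.ext h14
      rw [h15, map_one] at h12
      rw [h12]
      simp
    have h14 : i g ≤ l0 := le_lev i _ h13
    have h15 := np1_le hPMO i (show L1 ≤ l0 by omega)
    rw [← hc] at h15
    nlinarith
  have hgp : ∀ g : P, g ^ p ∈ lam.ker := fun g => h5.1 (h5.2.2.2.1 g)
  by_cases hcase : j = J'
  · -- Case B
    obtain ⟨g0, hg0⟩ : ∃ g0 : P, g0 ∉ lam.ker := by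
      by_contra hcon
      push Not at hcon
      apply hA.lne
      ext x
      rw [hcon x]
      rfl
    obtain ⟨ψ, hψp, hψ⟩ := np1_notpow p lam.ker hcB ⟨g0 ^ p, hgp g0⟩ (by
      intro a ha
      exact h6 g0 hg0 a a.2 (congrArg Subtype.val ha).symm)
    obtain ⟨f, ω, θ, ε, t1, t2, t3, t4, t5, t6, t7⟩ := hTHB p hp2 G k M P ι v π lam.ker lam z j F J
      Y hGS hGp hπ hA hab h5 ψ
    have w0 : ∀ g : G, π g ∈ lam.ker → ω g ^ p = 1 := by
      intro g hg
      have h1 := t4 g ⟨π g, hg⟩ rfl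
      have h2 := hψp ⟨π g, hg⟩
      rw [h1, mul_pow, ← pow_mul, mul_comm _ p, pow_mul, t2, one_pow, mul_one] at h2
      exact h2
    obtain ⟨g, hg⟩ := hπ g0
    have w2 : ω g ^ p ≠ 1 := by
      have h1 := t4 (g ^ p) ⟨g0 ^ p, hgp g0⟩ (by rw [map_pow, hg])
      rw [t5, map_pow] at h1
      simp only [toAdd_one, ZMod.val_zero, pow_zero, mul_one] at h1
      rw [← h1]
      exact hψ
    refine halpha ψ f ω θ ε t1 t3 t4 t7 ?_ ⟨g, w2⟩ ?_
    · intro x
      rw [pow_two, pow_mul, ← map_pow]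
      apply w0
      rw [map_pow]
      exact hgp _
    · have h1 : (lam.comp π).ker.index = p := by
        rw [← MonoidHom.comap_ker, Subgroup.index_comap_of_surjective _ hπ]
        exact hB
      have h2 : ((powMonoidHom p).comp ω).ker = (lam.comp π).ker := by
        refine np1_ker _ _ h1 (fun x hx => w0 x hx) ?_
        intro h
        have h3 : g ∈ ((powMonoidHom p).comp ω).ker := by rw [h]; trivial
        exact w2 h3
      have h3 : {g | ω g ^ p ≠ 1} = {g | lam (π g) ≠ 1} := by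
        ext x
        have h4 : x ∈ ((powMonoidHom p).comp ω).ker ↔ x ∈ (lam.comp π).ker := by rw [h2]
        exact not_congr h4
      rw [h3, hz, hcase]
  · -- Case A
    have hlt : j < J' := lt_of_le_of_ne hjJ hcase
    obtain ⟨τ, hτ⟩ := np1_zeta p
    obtain ⟨ψ, hψ⟩ := np1_root p lam.ker hcB (τ.comp (f0.comp lam.ker.subtype)) (by
      intro b hb
      have h1 : (b : P) ∈ Subgroup.center P := hcen _ (congrArg Subtype.val hb)
      have h2 : f0 (b : P) = 1 := hf0c _ h1
      change τ (f0 (b : P)) = 1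
      rw [h2, map_one])
    obtain ⟨f, ω, θ, ε, t1, t2, t3, t4, t5, t6, t7⟩ := hTHB p hp2 G k M P ι v π lam.ker lam z j F J
      Y hGS hGp hπ hA hab h5 ψ
    have w0 : ∀ g : G, π g ∈ lam.ker → ω g ^ p = τ (f0 (π g)) := by
      intro g hg
      have h1 := t4 g ⟨π g, hg⟩ rfl
      have h2 := hψ ⟨π g, hg⟩
      rw [h1, mul_pow, ← pow_mul, mul_comm _ p, pow_mul, t2, one_pow, mul_one] at h2
      exact h2
    have hne : ({g | f0 (π g) ≠ 1} : Set G).Nonempty := by
      by_contra hcon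
      rw [Set.not_nonempty_iff_eq_empty] at hcon
      apply hf0
      ext x
      obtain ⟨g, rfl⟩ := hπ x
      by_contra h1
      have h2 : g ∈ ({g | f0 (π g) ≠ 1} : Set G) := fun h3 => h1 (by rw [h3]; rfl)
      rw [hcon] at h2
      exact h2
    obtain ⟨g, hg, hgL⟩ := lev_mem i _ hne
    have hL := hF f0 hf0
    have h4 : lev i {g | lam (π g) ≠ 1} < lev i {g | f0 (π g) ≠ 1} := by
      apply np1_lt hPMO i
      rw [hz, hL]
      have : (j : ℚ) < J' := by exact_mod_cast hlt
      linarith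
    have hb : π g ∈ lam.ker := by
      by_contra h
      have : i g ≤ lev i {g | lam (π g) ≠ 1} := le_lev i _ h
      omega
    have w2 : ω g ^ p ≠ 1 := by
      rw [w0 g hb]
      exact fun h => hg (hτ _ h)
    refine halpha ψ f ω θ ε t1 t3 t4 t7 ?_ ⟨g, w2⟩ ?_
    · intro x
      rw [pow_two, pow_mul, ← map_pow, w0 (x ^ p) (by rw [map_pow]; exact hgp _), map_pow,
        hf0c _ (h5.2.2.2.1 _), map_one]
    · rw [← hJ'] at hL
      rw [← hL, ← hgL]
      exact np1_le hPMO i (le_lev i _ w2)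

theorem st_NP1 (hGRB : ST_GRB) (hAUX : ST_AUX) (hTHB : ST_THB) (hCP2 : ST_CP2) (hHAR : ST_HAR)
    (hNPU : ST_NPU) (hPMO : ST_PMO) (hASL : ST_ASL) (hRFI : ST_RFI) : ST_NP1 := by
  intro p _ hp2 k P _ _ _ _ _ _ hP B hB hab hcen c hc
  by_cases hnc : ∃ x : P, x ∉ Subgroup.center P
  swap
  · push Not at hnc
    obtain ⟨m, hm⟩ := hNPU p k P hP 1 (fun N hN _ => ⟨⊤, by
      have h1 : ⁅(⊤ : Subgroup P), (⊤ : Subgroup P)⁆ = ⊥ := by
        rw [Subgroup.commutator_eq_bot_iff_le_centralizer]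
        intro x _
        rw [Subgroup.mem_centralizer_iff]
        intro y _
        exact (Subgroup.mem_center_iff.mp (hnc x) y)
      rw [h1, inf_bot_eq], by simp⟩) c hc
    exact ⟨m, by simpa using hm⟩
  · obtain ⟨q1, q2, q3, q4, q5, q6⟩ := hGRB p hp2 P hP B hB hab hcen hnc
    obtain ⟨lam, hlam⟩ := np1_lam hP B hB
    subst hlam
    have hlne : lam ≠ 1 := by
      rintro rfl
      have h1 : (1 : P →* Multiplicative (ZMod p)).ker = ⊤ := MonoidHom.ker_one
      rw [h1, Subgroup.index_top] at hB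
      exact (Fact.out (p := p.Prime)).one_lt.ne hB
    obtain ⟨G, M, _, _, _, _, ι, v, π, z, j, F, J, Y, hGS, hGp, hπ, hA, hcl⟩ :=
      hAUX p k P hP lam hlne c hc
    exact np1_main hTHB hCP2 hHAR hPMO hASL hRFI hp2 ι v π lam z j F J Y hGS hGp hπ hA hP hB hab
      hcen ⟨q1, q2, q3, q4, q6⟩ q5 c hcl

end Pool.Agent.Helper22.NP
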