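import Pool.Agent.Helper22.NP.Basic

/-! Module NP1: preliminaries. -/

set_option autoImplicit false

namespace Pool.Agent.Helper22.NP

open scoped Classical

/-! ### Group theory -/

/-- nontrivial normal subgroups of `p`-groups meet the centre -/
theorem np1_center {p : ℕ} [Fact p.Prime] {P : Type} [Group P] [Finite P] (hP : IsPGroup p P)
    (S : Subgroup P) [S.Normal] (hS : S ≠ ⊥) : ∃ s ∈ S, s ≠ 1 ∧ s ∈ Subgroup.center P := by
  have hSn : Nontrivial S := (Subgroup.nontrivial_iff_ne_bot S).mpr hS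
  have h1 := (hP.of_equiv ConjAct.toConjAct).exists_fixed_point_of_prime_dvd_card_of_fixed_point S
  have dvd : p ∣ Nat.card S := by
    obtain ⟨n, hn0, hn⟩ := (hP.to_subgroup S).nontrivial_iff_card.mp inferInstance
    exact hn.symm ▸ dvd_pow_self _ (ne_of_gt hn0)
  have h2 : (1 : S) ∈ MulAction.fixedPoints (ConjAct P) S := by
    intro g
    exact smul_one g
  obtain ⟨s, hs, hs1⟩ := h1 dvd h2
  refine ⟨s, s.2, fun h => hs1 (Subtype.ext h.symm), ?_⟩
  rw [Subgroup.mem_center_iff]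
  intro g
  have h3 := hs (ConjAct.toConjAct g)
  have h4 := congrArg (Subtype.val) h3
  rw [ConjAct.Subgroup.val_conj_smul, ConjAct.toConjAct_smul] at h4
  rw [← mul_inv_eq_iff_eq_mul]
  exact h4

theorem np1_normal {p : ℕ} [Fact p.Prime] {P : Type} [Group P] [Finite P] (hP : IsPGroup p P)
    (B : Subgroup P) (hB : B.index = p) : B.Normal := by
  apply Subgroup.normal_of_index_eq_minFac_card
  obtain ⟨n, hn⟩ := IsPGroup.iff_card.mp hP
  have h1 : n ≠ 0 := by
    rintro rfl
    have h2 := B.index_dvd_card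
    rw [hn, hB, pow_zero] at h2
    exact (Fact.out (p := p.Prime)).one_lt.ne' (Nat.dvd_one.mp h2)
  rw [hn, hB, Nat.Prime.pow_minFac Fact.out h1]

theorem np1_lam {p : ℕ} [Fact p.Prime] {P : Type} [Group P] [Finite P] (hP : IsPGroup p P)
    (B : Subgroup P) (hB : B.index = p) : ∃ lam : P →* Multiplicative (ZMod p), lam.ker = B := by
  have hn := np1_normal hP B hB
  have h1 : Nat.card (P ⧸ B) = p := hB
  have h2 : Nat.card (Multiplicative (ZMod p)) = p := by simp
  let e : (P ⧸ B) ≃* Multiplicative (ZMod p) := mulEquivOfPrimeCardEq (p := p) h1 h2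
  refine ⟨e.toMonoidHom.comp (QuotientGroup.mk' B), ?_⟩
  ext x
  rw [MonoidHom.mem_ker, MonoidHom.comp_apply]
  constructor
  · intro h
    have h3 : QuotientGroup.mk' B x = 1 := e.injective (by rw [map_one]; exact h)
    exact (QuotientGroup.eq_one_iff x).mp h3
  · intro h
    have h3 : QuotientGroup.mk' B x = 1 := (QuotientGroup.eq_one_iff x).mpr h
    rw [h3, map_one]

theorem np1_ker {p : ℕ} [Fact p.Prime] {G : Type} [Group G] (H K : Subgroup G)
    (hH : H.index = p) (h : H ≤ K) (hK : K ≠ ⊤) : K = H := by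
  have h1 := Subgroup.relIndex_mul_index h
  have h2 : K.index ∣ p := by rw [← hH, ← h1]; exact Dvd.intro_left _ rfl
  rcases (Nat.dvd_prime (Fact.out (p := p.Prime))).mp h2 with h3 | h3
  · exact absurd (Subgroup.index_eq_one.mp h3) hK
  · rw [h3, hH] at h1
    have hp0 : 0 < p := (Fact.out (p := p.Prime)).pos
    have h4 : H.relIndex K = 1 := by
      have h5 : H.relIndex K * p = 1 * p := by rw [h1, one_mul]
      exact Nat.eq_of_mul_eq_mul_right hp0 h5
    exact le_antisymm (Subgroup.relIndex_eq_one.mp h4) h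

/-! ### Characters -/

theorem np1_enough (B : Type) [CommGroup B] [Finite B] :
    HasEnoughRootsOfUnity ℂ (Monoid.exponent B) := by
  have : NeZero ((Monoid.exponent B : ℕ) : ℂ) :=
    ⟨by exact_mod_cast Monoid.exponent_ne_zero_of_finite⟩
  infer_instance

theorem np1_ne0 (B : Type) [CommGroup B] [Finite B] (b : B) (hb : b ≠ 1) :
    ∃ ψ : B →* ℂˣ, ψ b ≠ 1 := by
  have := np1_enough B
  exact CommGroup.exists_apply_ne_one_of_hasEnoughRootsOfUnity B ℂ hb

theorem np1_notpow0 (p : ℕ) (B : Type) [CommGroup B] [Finite B] (b : B) (hb : ∀ a, a ^ p ≠ b) :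
    ∃ ψ : B →* ℂˣ, (∀ a, ψ a ^ p = 1) ∧ ψ b ≠ 1 := by
  have := np1_enough B
  have h1 : b ∉ (powMonoidHom p : B →* B).range := by
    rintro ⟨a, ha⟩
    exact hb a ha
  rw [← CommGroup.forall_monoidHom_apply_eq_one_iff ℂ] at h1
  push Not at h1
  obtain ⟨φ, h2, h3⟩ := h1
  refine ⟨φ, fun a => ?_, h3⟩
  rw [← map_pow]
  exact h2 _ ⟨a, rfl⟩

theorem np1_root0 (p : ℕ) (B : Type) [CommGroup B] [Finite B] (χ : B →* ℂˣ)
    (hχ : ∀ b : B, b ^ p = 1 → χ b = 1) : ∃ η : B →* ℂˣ, ∀ b, η b ^ p = χ b := by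
  have := np1_enough B
  let f : B →* B := powMonoidHom p
  have hs : Function.Surjective f.rangeRestrict := f.rangeRestrict_surjective
  let g : f.range →* ℂˣ := f.rangeRestrict.liftOfSurjective hs ⟨χ, by
    intro b hb
    rw [MonoidHom.mem_ker] at hb ⊢
    apply hχ
    exact congrArg Subtype.val hb⟩
  obtain ⟨η, hη⟩ := MonoidHom.domRestrict_surjective ℂ f.range g
  refine ⟨η, fun b => ?_⟩
  have h1 : g (f.rangeRestrict b) = χ b := MonoidHom.liftOfRightInverse_comp_apply _ _ _ _ b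
  rw [← h1, ← hη, ← map_pow]
  rfl

theorem np1_ne (B : Type) [Group B] [Finite B] (hc : ∀ a b : B, a * b = b * a) (b : B)
    (hb : b ≠ 1) : ∃ ψ : B →* ℂˣ, ψ b ≠ 1 := by
  let _ : CommGroup B := { (inferInstance : Group B) with mul_comm := hc }
  exact np1_ne0 B b hb

theorem np1_notpow (p : ℕ) (B : Type) [Group B] [Finite B] (hc : ∀ a b : B, a * b = b * a) (b : B)
    (hb : ∀ a, a ^ p ≠ b) : ∃ ψ : B →* ℂˣ, (∀ a, ψ a ^ p = 1) ∧ ψ b ≠ 1 := by
  let _ : CommGroup B := { (inferInstance : Group B) with mul_comm := hc }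
  exact np1_notpow0 p B b hb

theorem np1_root (p : ℕ) (B : Type) [Group B] [Finite B] (hc : ∀ a b : B, a * b = b * a)
    (χ : B →* ℂˣ) (hχ : ∀ b : B, b ^ p = 1 → χ b = 1) : ∃ η : B →* ℂˣ, ∀ b, η b ^ p = χ b := by
  let _ : CommGroup B := { (inferInstance : Group B) with mul_comm := hc }
  exact np1_root0 p B χ hχ

/-- a faithful character of `Z/p` -/
theorem np1_zeta (p : ℕ) [Fact p.Prime] : ∃ τ : Multiplicative (ZMod p) →* ℂˣ,
    ∀ x, τ x = 1 → x = 1 := by
  have h2 : Nat.card (Multiplicative (ZMod p)) = p := by simp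
  have hp : p.Prime := Fact.out
  have h3 : (Multiplicative.ofAdd (1 : ZMod p)) ≠ 1 := by
    intro h
    exact one_ne_zero (α := ZMod p) (Multiplicative.ofAdd.injective h)
  obtain ⟨τ, hτ⟩ := np1_ne0 (Multiplicative (ZMod p)) _ h3
  refine ⟨τ, fun x hx => ?_⟩
  have hk : τ.ker = ⊥ := by
    have h4 : Nat.card τ.ker ∣ p := by
      have := Subgroup.card_subgroup_dvd_card τ.ker
      rwa [h2] at this
    rcases (Nat.dvd_prime hp).mp h4 with h5 | h5
    · exact Subgroup.card_eq_one.mp h5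
    · exfalso
      apply hτ
      have h6 : τ.ker = ⊤ := Subgroup.eq_top_of_card_eq _ (by rw [h5, h2])
      rw [← MonoidHom.mem_ker, h6]
      trivial
  have : x ∈ τ.ker := hx
  rwa [hk, Subgroup.mem_bot] at this

/-! ### Constants -/

theorem np1_zc (p : ℕ) [Fact p.Prime] (M : Type) [Field M] [CharP M p]
    (x : Multiplicative (ZMod p)) : zc p M x = 0 ↔ x = 1 := by
  unfold zc
  rw [CharP.cast_eq_zero_iff M p]
  have h1 := ZMod.val_lt (Multiplicative.toAdd x)
  constructor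
  · intro h
    have h2 : (Multiplicative.toAdd x).val = 0 := Nat.eq_zero_of_dvd_of_lt h h1
    rw [ZMod.val_eq_zero] at h2
    exact h2
  · rintro rfl
    simp

theorem np1_inv (p : ℕ) [Fact p.Prime] (G M : Type) [Field M] [CharP M p] [Group G]
    [MulSemiringAction G M] (y : M) (g : G) (x : Multiplicative (ZMod p))
    (h : g • y = y + zc p M x) : g • (y ^ p - y) = y ^ p - y := by
  have h1 : (zc p M x) ^ p = zc p M x := by
    unfold zc
    rw [← frobenius_def, map_natCast]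
  rw [smul_sub, smul_pow', h, add_pow_char, h1]
  ring

/-! ### Levels -/

theorem np1_lt (hPMO : ST_PMO) {G : Type} [Group G] [Fintype G] (i : G → ℕ) {x y : ℕ}
    (h : Phi i x < Phi i y) : x < y := by
  by_contra hcon
  rcases lt_or_eq_of_le (not_lt.mp hcon) with h1 | h1
  · exact absurd h (not_lt.mpr ((hPMO G i y x).1 h1).le)
  · rw [h1] at h
    exact lt_irrefl _ h

theorem np1_le (hPMO : ST_PMO) {G : Type} [Group G] [Fintype G] (i : G → ℕ) {x y : ℕ}
    (h : x ≤ y) : Phi i x ≤ Phi i y := by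
  rcases lt_or_eq_of_le h with h1 | h1
  · exact ((hPMO G i x y).1 h1).le
  · rw [h1]

theorem np1_asl (hASL : ST_ASL) {p : ℕ} [Fact p.Prime] {G k M : Type} [Field k] [CharP k p]
    [Field M] [Group G] [Fintype G] [MulSemiringAction G M] {ι : k →+* M}
    {v : AddValuation M (WithTop ℤ)} (hGS : GS G ι v) (hG : IsPGroup p G)
    (χ : G → Multiplicative (ZMod p)) (y : M) (m : ℕ) (hy : ∀ g, g • y = y + zc p M (χ g))
    (hv : v (y ^ p - y) = ((-((m * Nat.card G : ℕ) : ℤ) : ℤ) : WithTop ℤ)) (hm : 0 < m)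
    (hpm : ¬ p ∣ m) :
    Phi (ram (G := G) v) (lev (ram (G := G) v) {g | χ g ≠ 1}) = m + 1 := by
  have := charP_of_ring (p := p) ι
  have h1 := (hASL p G k M ι v hGS hG y m (fun g => np1_inv p G M y g (χ g) (hy g)) hv hm hpm).2
  have h2 : {g : G | g • y ≠ y} = {g | χ g ≠ 1} := by
    ext g
    simp only [Set.mem_ofPred_eq, ne_eq, hy g, add_eq_left, np1_zc]
  rw [h2] at h1
  exact h1

end Pool.Agent.Helper22.NP
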